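import Pool.Agent.Helper62.EF.Stmts

/-!
# EF, row BA
-/

set_option autoImplicit false

namespace Pool.Agent.Helper94.EF

open Filter Topology Pool.Agent.Helper62.EF

theorem fo_rep {G : Type} [AddCommGroup G] (φ : G →+ G) {x : G} (h : x ∈ tt φ) :
    ∃ a b : ℕ, a < b ∧ φ^[b] x = φ^[a] x := by
  have h1 : (Set.range fun i : ℕ => φ^[i] x).Finite := h
  have h2 : ¬ Function.Injective (fun i : ℕ => φ^[i] x) := fun hi =>
    (Set.infinite_range_of_injective hi) h1
  simp only [Function.Injective, not_forall] at h2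
  obtain ⟨i, j, h3, h4⟩ := h2
  rcases lt_or_gt_of_ne h4 with h5 | h5
  · exact ⟨i, j, h5, h3.symm⟩
  · exact ⟨j, i, h5, h3⟩

theorem it_comm {G : Type} [AddCommGroup G] (φ : G →+ G) (i b : ℕ) (x : G) :
    φ^[i] (φ^[b] x) = φ^[b] (φ^[i] x) := by
  rw [← Function.iterate_add_apply, ← Function.iterate_add_apply, add_comm]

theorem st_BA (h1 : ST_TW) : ST_BA := by
  intro G _ _ _ _ _ φ m hφ hm hx hcount x
  classical
  have hit : ∀ n, Continuous (φ^[n]) := fun n => hφ.iterate n
  let f : ((G ⧸ tt φ) × {p : ℕ × ℕ // p.1 < p.2}) → Set G := fun i =>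
    {y | φ^[i.2.1.2] (y - Quotient.out i.1) = φ^[i.2.1.1] (y - Quotient.out i.1)}
  have hc : ∀ i, IsClosed (f i) := fun i =>
    isClosed_eq ((hit _).comp (continuous_id.sub continuous_const))
      ((hit _).comp (continuous_id.sub continuous_const))
  have hU : ⋃ i, f i = Set.univ := by
    rw [Set.eq_univ_iff_forall]
    intro y
    have h2 : y - Quotient.out (QuotientAddGroup.mk y : G ⧸ tt φ) ∈ tt φ := by
      have h3 : (QuotientAddGroup.mk (Quotient.out (QuotientAddGroup.mk y : G ⧸ tt φ)) :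
          G ⧸ tt φ) = QuotientAddGroup.mk y := QuotientAddGroup.out_eq' _
      have h4 := QuotientAddGroup.eq.1 h3
      rwa [neg_add_eq_sub] at h4
    obtain ⟨a, b, h5, h6⟩ := fo_rep φ h2
    exact Set.mem_iUnion.2 ⟨(QuotientAddGroup.mk y, ⟨(a, b), h5⟩), h6⟩
  obtain ⟨⟨q, ⟨⟨a, b⟩, hab⟩⟩, x0, hx0⟩ := nonempty_interior_of_iUnion_of_closed hc hU
  let K : AddSubgroup G :=
    { carrier := {y | φ^[b] y = φ^[a] y}
      zero_mem' := by
        show φ^[b] 0 = φ^[a] 0
        rw [iterate_map_zero, iterate_map_zero]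
      add_mem' := by
        intro y z hy hz
        have hy' : φ^[b] y = φ^[a] y := hy
        have hz' : φ^[b] z = φ^[a] z := hz
        show φ^[b] (y + z) = φ^[a] (y + z)
        rw [iterate_map_add, iterate_map_add, hy', hz']
      neg_mem' := by
        intro y hy
        have hy' : φ^[b] y = φ^[a] y := hy
        show φ^[b] (-y) = φ^[a] (-y)
        rw [iterate_map_neg, iterate_map_neg, hy'] }
  have hopen : IsOpen (K : Set G) := by
    refine AddSubgroup.isOpen_of_mem_nhds K (g := x0 - Quotient.out q) ?_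
    have h2 : f (q, ⟨(a, b), hab⟩) ∈ 𝓝 x0 := mem_interior_iff_mem_nhds.1 hx0
    have h3 : Tendsto (fun y : G => y + Quotient.out q) (𝓝 (x0 - Quotient.out q)) (𝓝 x0) := by
      have h4 : Continuous (fun y : G => y + Quotient.out q) := continuous_id.add continuous_const
      have h5 := h4.tendsto (x0 - Quotient.out q)
      simpa using h5
    filter_upwards [h3 h2] with y hy
    have hy' : φ^[b] (y + Quotient.out q - Quotient.out q) =
      φ^[a] (y + Quotient.out q - Quotient.out q) := hy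
    rw [add_sub_cancel_right] at hy'
    exact hy'
  have hfin : Finite (G ⧸ K) := AddSubgroup.quotient_finite_of_isOpen K hopen
  have hr : (Set.range fun y : G => φ^[b] y - φ^[a] y).Finite := by
    refine (Set.finite_range fun q : G ⧸ K => φ^[b] (Quotient.out q) - φ^[a] (Quotient.out q)).subset ?_
    rintro _ ⟨y, rfl⟩
    refine ⟨QuotientAddGroup.mk y, ?_⟩
    have h2 : -Quotient.out (QuotientAddGroup.mk y : G ⧸ K) + y ∈ K :=
      QuotientAddGroup.eq.1 (QuotientAddGroup.out_eq' _)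
    have h3 : φ^[b] (-Quotient.out (QuotientAddGroup.mk y : G ⧸ K) + y) =
      φ^[a] (-Quotient.out (QuotientAddGroup.mk y : G ⧸ K) + y) := h2
    rw [iterate_map_add, iterate_map_add, iterate_map_neg, iterate_map_neg] at h3
    show φ^[b] (Quotient.out (QuotientAddGroup.mk y : G ⧸ K)) -
      φ^[a] (Quotient.out (QuotientAddGroup.mk y : G ⧸ K)) = φ^[b] y - φ^[a] y
    rw [sub_eq_sub_iff_add_eq_add]
    rw [neg_add_eq_sub, neg_add_eq_sub, sub_eq_sub_iff_add_eq_add] at h3
    rw [add_comm, h3.symm, add_comm]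
  refine h1 G φ m hm hx x a b hab ?_
  show (Set.range fun i : ℕ => φ^[i] (φ^[b] x - φ^[a] x)).Finite
  refine hr.subset ?_
  rintro _ ⟨i, rfl⟩
  refine ⟨φ^[i] x, ?_⟩
  show φ^[b] (φ^[i] x) - φ^[a] (φ^[i] x) = φ^[i] (φ^[b] x - φ^[a] x)
  rw [iterate_map_sub, it_comm φ i b x, it_comm φ i a x]

end Pool.Agent.Helper94.EF
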